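import Pool.Agent.Helper48.CR.Goals
import Pool.Agent.Helper90.TwinS

/-!
# Packet MID: fundamental lemma for the middle primes
-/

set_option autoImplicit false

open Finset Filter Topology

namespace Pool.Agent.Helper73.CR

open Pool.Agent.Helper48.CR
open Pool.Agent.Helper90.Twin (nu Ps Sz Adm fundamental tendsto_Sz eventually_Sz_le mem_Ps)

theorem mem_pr {z0 r p : ℕ} : p ∈ pr z0 r ↔ z0 < p ∧ p ≤ r ∧ p.Prime := by
  unfold pr
  rw [Finset.mem_filter, Finset.mem_Ioc]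
  tauto

theorem pr_sub {z0 r : ℕ} (h : 4 ≤ z0) : pr z0 r ⊆ Ps r := by
  intro p hp
  rw [mem_pr] at hp
  rw [mem_Ps]
  exact ⟨by omega, hp.2.1, hp.2.2⟩

/-- number of solutions of a linear congruence -/
theorem card_sol {p : ℕ} (hp : p.Prime) {P : ℕ} (hP : ¬ p ∣ P) (c b : ℕ) :
    ((range p).filter (fun x => c + P * x ≡ b [MOD p])).card = 1 := by
  have : Fact p.Prime := ⟨hp⟩
  have hP0 : (P : ZMod p) ≠ 0 := by
    rw [Ne, ZMod.natCast_eq_zero_iff]
    exact hP
  rw [Finset.card_eq_one]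
  refine ⟨(((b : ZMod p) - c) * (P : ZMod p)⁻¹).val, ?_⟩
  ext x
  rw [Finset.mem_filter, Finset.mem_range, Finset.mem_singleton,
    ← ZMod.natCast_eq_natCast_iff]
  push_cast
  constructor
  · rintro ⟨hx, h⟩
    have h1 : (x : ZMod p) = ((b : ZMod p) - c) * (P : ZMod p)⁻¹ := by
      rw [← h]
      field_simp
      ring
    rw [← h1, ZMod.val_natCast_of_lt hx]
  · intro h
    have h1 : (x : ZMod p) = ((b : ZMod p) - c) * (P : ZMod p)⁻¹ := by
      rw [h, ZMod.natCast_val, ZMod.cast_id', id]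
    refine ⟨?_, ?_⟩
    · rw [h]
      exact ZMod.val_lt _
    · rw [h1]
      field_simp
      ring

open Classical in
/-- weights of a family of conditions modulo the middle primes -/
noncomputable def W (z0 r : ℕ) (Q : ℕ → ℕ → Prop) (p t : ℕ) : ℝ :=
  if p ∈ pr z0 r ∧ Q p t then 1 else 0

open Classical in
theorem nu_W {z0 r : ℕ} (Q : ℕ → ℕ → Prop) (p : ℕ) :
    nu (W z0 r Q) p = if p ∈ pr z0 r then (((range p).filter (Q p)).card : ℝ) else 0 := by
  unfold nu W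
  by_cases h : p ∈ pr z0 r
  · simp [h]
  · simp [h]

open Classical in
theorem adm_W {z0 r : ℕ} {Q : ℕ → ℕ → Prop}
    (hper : ∀ p ∈ pr z0 r, ∀ x, Q p (x + p) ↔ Q p x)
    (hcard : ∀ p ∈ pr z0 r, ((range p).filter (Q p)).card ≤ 2) : Adm (W z0 r Q) 2 := by
  refine ⟨?_, ?_, ?_, ?_⟩
  · intro p _ _ x
    unfold W
    split_ifs <;> norm_num
  · intro p _ _ x
    unfold W
    split_ifs <;> norm_num
  · intro p _ _ x
    unfold W
    by_cases h : p ∈ pr z0 r
    · simp only [h, true_and, hper p h x]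
    · simp [h]
  · intro p _ _
    rw [nu_W]
    split_ifs with h
    · exact_mod_cast hcard p h
    · norm_num

open Classical in
theorem prod_W {z0 r : ℕ} (hz : 4 ≤ z0) (Q : ℕ → ℕ → Prop) (t : ℕ) :
    ∏ p ∈ Ps r, (1 - W z0 r Q p t) = if (∀ p ∈ pr z0 r, ¬ Q p t) then (1 : ℝ) else 0 := by
  split_ifs with h
  · apply Finset.prod_eq_one
    intro p _
    unfold W
    rw [if_neg, sub_zero]
    rintro ⟨h1, h2⟩
    exact h p h1 h2
  · push Not at h
    obtain ⟨p, hp, hQ⟩ := h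
    apply Finset.prod_eq_zero (pr_sub hz hp)
    unfold W
    rw [if_pos ⟨hp, hQ⟩, sub_self]

open Classical in
theorem prod_nu {z0 r : ℕ} (hz : 4 ≤ z0) (Q : ℕ → ℕ → Prop) :
    ∏ p ∈ Ps r, (1 - nu (W z0 r Q) p / p)
      = ∏ p ∈ pr z0 r, (1 - (((range p).filter (Q p)).card : ℝ) / p) := by
  rw [← Finset.prod_subset (pr_sub hz)]
  · apply Finset.prod_congr rfl
    intro p hp
    rw [nu_W, if_pos hp]
  · intro p _ hp
    rw [nu_W, if_neg hp]
    simp

open Classical in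
theorem sieve {δ : ℝ} (hδ : 0 < δ) : ∃ K : ℕ, ∀ᶠ r : ℕ in atTop, ∀ z0 : ℕ, 4 ≤ z0 →
    ∀ Q : ℕ → ℕ → Prop, (∀ p ∈ pr z0 r, ∀ x, Q p (x + p) ↔ Q p x) →
    ∀ ν : ℕ → ℕ, (∀ p ∈ pr z0 r, ν p ≤ 2) →
    (∀ p ∈ pr z0 r, ((range p).filter (Q p)).card = ν p) → ∀ N A : ℕ,
    A = ((range N).filter (fun t => ∀ p ∈ pr z0 r, ¬ Q p t)).card →
    |(A : ℝ) - N * ∏ p ∈ pr z0 r, (1 - (ν p : ℝ) / p)|
      ≤ δ * (N * ∏ p ∈ pr z0 r, (1 - (ν p : ℝ) / p))
        + (N * Real.exp (-(8 * Sz r)) + (r : ℝ) ^ K) := by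
  obtain ⟨K, hK⟩ := fundamental (κ := 2) (by norm_num) hδ (A := 8) (by norm_num)
  refine ⟨K, ?_⟩
  filter_upwards [hK] with r hr
  intro z0 hz Q hper ν hν hcard N A hA
  have h := hr (W z0 r Q) (adm_W hper (fun p hp => by rw [hcard p hp]; exact hν p hp)) N
  rw [prod_nu hz] at h
  have h2 : ∑ t ∈ range N, ∏ p ∈ Ps r, (1 - W z0 r Q p t)
      = (((range N).filter (fun t => ∀ p ∈ pr z0 r, ¬ Q p t)).card : ℝ) := by
    rw [Finset.sum_congr rfl (fun t _ => prod_W hz Q t)]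
    simp
  have h3 : ∏ p ∈ pr z0 r, (1 - (((range p).filter (Q p)).card : ℝ) / p)
      = ∏ p ∈ pr z0 r, (1 - (ν p : ℝ) / p) := by
    apply Finset.prod_congr rfl
    intro p hp
    rw [hcard p hp]
  rw [h2, h3, ← hA] at h
  exact h

theorem exp_le {p : ℕ} (hp : 5 ≤ p) : Real.exp (-(2 * (1 / (p : ℝ)))) ≤ 1 - 1 / (p : ℝ) := by
  have hp0 : (5 : ℝ) ≤ p := by exact_mod_cast hp
  have hpos : (0 : ℝ) < p := by linarith
  have h1 := Real.add_one_le_exp (2 * (1 / (p : ℝ)))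
  rw [Real.exp_neg]
  have hx : 1 / (p : ℝ) ≤ 1 / 5 := one_div_le_one_div_of_le (by norm_num) hp0
  have hx0 : 0 < 1 / (p : ℝ) := by positivity
  rw [inv_le_comm₀ (Real.exp_pos _) (by linarith)]
  refine le_trans ?_ h1
  rw [inv_le_comm₀ (by linarith) (by linarith)]
  rw [inv_eq_one_div, div_le_iff₀ (by linarith)]
  nlinarith

theorem V_lower {z0 r : ℕ} (hz : 4 ≤ z0) :
    Real.exp (-(2 * Sz r)) ≤ ∏ p ∈ pr z0 r, (1 - 1 / (p : ℝ)) := by
  have h1 : Real.exp (-(2 * ∑ p ∈ pr z0 r, 1 / (p : ℝ)))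
      ≤ ∏ p ∈ pr z0 r, (1 - 1 / (p : ℝ)) := by
    rw [Finset.mul_sum, ← Finset.sum_neg_distrib, Real.exp_sum]
    apply Finset.prod_le_prod
    · intro p _
      positivity
    · intro p hp
      exact exp_le (by have := (mem_pr.1 hp).1; omega)
  refine le_trans ?_ h1
  rw [Real.exp_le_exp]
  have h2 : ∑ p ∈ pr z0 r, 1 / (p : ℝ) ≤ Sz r := by
    unfold Sz
    apply Finset.sum_le_sum_of_subset_of_nonneg (pr_sub hz)
    intro p _ _
    positivity
  linarith

theorem V_pos {z0 r : ℕ} (hz : 4 ≤ z0) : 0 < ∏ p ∈ pr z0 r, (1 - 1 / (p : ℝ)) :=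
  lt_of_lt_of_le (Real.exp_pos _) (V_lower hz)

theorem V_le_one {z0 r : ℕ} : ∏ p ∈ pr z0 r, (1 - 1 / (p : ℝ)) ≤ 1 := by
  apply Finset.prod_le_one
  · intro p hp
    have h1 : (1 : ℝ) ≤ p := by exact_mod_cast (mem_pr.1 hp).2.2.one_lt.le
    rw [sub_nonneg, div_le_one (by linarith)]
    exact h1
  · intro p _
    have : (0 : ℝ) ≤ 1 / (p : ℝ) := by positivity
    linarith

/-- at most two primes `> z0` divide `i < z0 ^ 3` -/
theorem card_div {z0 r i : ℕ} (hi : 1 ≤ i) (hi3 : i < z0 ^ 3) :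
    ((pr z0 r).filter (fun p => p ∣ i)).card ≤ 2 := by
  by_contra hc
  push Not at hc
  obtain ⟨D, hD, hD3⟩ := Finset.exists_subset_card_eq (show 3 ≤ _ from hc)
  have h1 : ∏ p ∈ D, p ∣ i := by
    apply Finset.prod_primes_dvd
    · intro p hp
      exact (mem_pr.1 (Finset.mem_filter.1 (hD hp)).1).2.2.prime
    · intro p hp
      exact (Finset.mem_filter.1 (hD hp)).2
  have h2 := Nat.le_of_dvd (by omega) h1
  have h3 : z0 ^ 3 ≤ ∏ p ∈ D, p := by
    rw [← hD3]
    apply Finset.pow_card_le_prod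
    intro p hp
    exact (mem_pr.1 (Finset.mem_filter.1 (hD hp)).1).1.le
  omega

theorem prod_upper {z0 r i : ℕ} (hz : 4 ≤ z0) (hi : 1 ≤ i) (hi3 : i < z0 ^ 3) (ν : ℕ → ℝ)
    (h1 : ∀ p ∈ pr z0 r, p ∣ i → ν p = 1) (h2 : ∀ p ∈ pr z0 r, ¬ p ∣ i → ν p = 2) :
    ∏ p ∈ pr z0 r, (1 - ν p / p)
      ≤ (∏ p ∈ pr z0 r, (1 - 1 / (p : ℝ))) ^ 2 * ((1 - 1 / (z0 : ℝ))⁻¹) ^ 2 := by
  classical
  have hz0 : (4 : ℝ) ≤ z0 := by exact_mod_cast hz
  have hq : 0 < 1 - 1 / (z0 : ℝ) := by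
    rw [sub_pos, div_lt_one (by linarith)]
    linarith
  have hq1 : 1 ≤ (1 - 1 / (z0 : ℝ))⁻¹ := by
    rw [one_le_inv₀ hq]
    have : 0 < 1 / (z0 : ℝ) := by positivity
    linarith
  have h3 : ∏ p ∈ pr z0 r, (1 - ν p / p)
      ≤ ∏ p ∈ pr z0 r, ((1 - 1 / (p : ℝ)) ^ 2 *
        (if p ∣ i then (1 - 1 / (z0 : ℝ))⁻¹ else 1)) := by
    apply Finset.prod_le_prod
    · intro p hp
      have hp4 : z0 < p := (mem_pr.1 hp).1
      have hp5 : (5 : ℝ) ≤ p := by exact_mod_cast (by omega : 5 ≤ p)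
      by_cases hd : p ∣ i
      · rw [h1 p hp hd, sub_nonneg, div_le_one (by linarith)]
        linarith
      · rw [h2 p hp hd, sub_nonneg, div_le_one (by linarith)]
        linarith
    · intro p hp
      have hp4 : z0 < p := (mem_pr.1 hp).1
      have hp5 : (5 : ℝ) ≤ p := by exact_mod_cast (by omega : 5 ≤ p)
      have hzp : (z0 : ℝ) ≤ p := by exact_mod_cast hp4.le
      have hx0 : 0 < 1 / (p : ℝ) := by positivity
      have hxz : 1 / (p : ℝ) ≤ 1 / (z0 : ℝ) := one_div_le_one_div_of_le (by linarith) hzp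
      by_cases hd : p ∣ i
      · rw [h1 p hp hd, if_pos hd, sq, mul_assoc]
        apply le_mul_of_one_le_right (by linarith)
        rw [← div_eq_mul_inv, one_le_div hq]
        linarith
      · rw [h2 p hp hd, if_neg hd, mul_one]
        have : (2 : ℝ) / p = 2 * (1 / (p : ℝ)) := by ring
        rw [this]
        nlinarith
  refine h3.trans ?_
  rw [Finset.prod_mul_distrib, Finset.prod_pow, Finset.prod_ite, Finset.prod_const_one, mul_one,
    Finset.prod_const]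
  apply mul_le_mul_of_nonneg_left _ (sq_nonneg _)
  exact pow_le_pow_right₀ hq1 (card_div hi hi3)

theorem modEq_add_self {p n P x c : ℕ} :
    n + P * (x + p) ≡ c [MOD p] ↔ n + P * x ≡ c [MOD p] := by
  have h : n + P * (x + p) ≡ n + P * x [MOD p] := by
    rw [show n + P * (x + p) = n + P * x + p * P by ring]
    simp [Nat.ModEq]
  exact ⟨fun h1 => h.symm.trans h1, fun h1 => h.trans h1⟩

theorem modEq_add_self' {p n P x i c : ℕ} :
    n + P * (x + p) + i ≡ c [MOD p] ↔ n + P * x + i ≡ c [MOD p] := by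
  rw [show n + P * (x + p) + i = (n + i) + P * (x + p) by ring,
    show n + P * x + i = (n + i) + P * x by ring]
  exact modEq_add_self

theorem card_two {p : ℕ} (hp : p.Prime) {P : ℕ} (hP : ¬ p ∣ P) (c b i : ℕ) :
    (p ∣ i → ((range p).filter (fun x => c + P * x ≡ b [MOD p] ∨
      c + P * x + i ≡ b [MOD p])).card = 1) ∧
    (¬ p ∣ i → ((range p).filter (fun x => c + P * x ≡ b [MOD p] ∨
      c + P * x + i ≡ b [MOD p])).card = 2) := by
  constructor
  · intro hi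
    rw [← card_sol hp hP c b]
    congr 1
    apply Finset.filter_congr
    intro x _
    have h : c + P * x + i ≡ c + P * x [MOD p] := by
      obtain ⟨j, rfl⟩ := hi
      simp [Nat.ModEq]
    constructor
    · rintro (h1 | h1)
      · exact h1
      · exact h.symm.trans h1
    · intro h1
      exact Or.inl h1
  · intro hi
    rw [Finset.filter_or, Finset.card_union_of_disjoint, card_sol hp hP c b]
    · have h : ((range p).filter (fun x => c + P * x + i ≡ b [MOD p])).card = 1 := by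
        rw [← card_sol hp hP (c + i) b]
        congr 1
        apply Finset.filter_congr
        intro x _
        rw [show c + P * x + i = c + i + P * x by ring]
      rw [h]
    · rw [Finset.disjoint_filter]
      intro x _ h1 h2
      apply hi
      have h3 : c + P * x + i ≡ c + P * x + 0 [MOD p] := by
        rw [add_zero]
        exact h2.trans h1.symm
      have h4 := Nat.ModEq.add_left_cancel' _ h3
      exact (Nat.modEq_zero_iff_dvd).1 h4

/-- packet MID -/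
theorem mid : MIDG := by
  classical
  intro δ hδ
  set δ1 : ℝ := min δ 1 / 5 with hδ1
  have hd0 : 0 < δ1 := by
    rw [hδ1]
    have : 0 < min δ 1 := lt_min hδ one_pos
    positivity
  have hd1 : 5 * δ1 ≤ 1 := by
    rw [hδ1]
    have := min_le_right δ 1
    linarith
  have hd2 : 5 * δ1 ≤ δ := by
    rw [hδ1]
    have := min_le_left δ 1
    linarith
  obtain ⟨K, hK⟩ := sieve hd0
  refine ⟨K + 3, ?_⟩
  have hsqrt : Tendsto (fun r : ℕ => Real.sqrt (Real.log (r : ℝ))) atTop atTop :=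
    Real.tendsto_sqrt_atTop.comp (Real.tendsto_log_atTop.comp tendsto_natCast_atTop_atTop)
  filter_upwards [hK, tendsto_Sz.eventually_ge_atTop (Real.log (1 / δ1) / 4),
    eventually_Sz_le (c := 4) (by norm_num) 0,
    (tendsto_natCast_atTop_atTop (R := ℝ)).eventually_ge_atTop (1 / δ1),
    hsqrt.eventually_ge_atTop (4 / δ1), hsqrt.eventually_ge_atTop 4, eventually_ge_atTop 1]
    with r h1 h2 h3 h4 h5 h6 h7
  intro z0 hz0 _ P n1 N hP hN b
  have hz4 : 4 ≤ z0 := by exact_mod_cast h6.trans hz0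
  have hr0 : (1 : ℝ) ≤ r := by exact_mod_cast h7
  have hNR : (r : ℝ) ^ (K + 3) ≤ N := by exact_mod_cast hN
  have hN0 : (0 : ℝ) < N := lt_of_lt_of_le (by positivity) hNR
  have hV0 : 0 < ∏ p ∈ pr z0 r, (1 - 1 / (p : ℝ)) := V_pos hz4
  have hV1 : ∏ p ∈ pr z0 r, (1 - 1 / (p : ℝ)) ≤ 1 := V_le_one
  have hVl : Real.exp (-(2 * Sz r)) ≤ ∏ p ∈ pr z0 r, (1 - 1 / (p : ℝ)) := V_lower hz4
  set V : ℝ := ∏ p ∈ pr z0 r, (1 - 1 / (p : ℝ)) with hVdef
  have hVsq : Real.exp (-(4 * Sz r)) ≤ V ^ 2 := by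
    calc Real.exp (-(4 * Sz r)) = Real.exp (-(2 * Sz r)) ^ 2 := by
          rw [← Real.exp_nat_mul]
          congr 1
          push_cast
          ring
      _ ≤ V ^ 2 := pow_le_pow_left₀ (Real.exp_pos _).le hVl 2
  have he4 : Real.exp (-(4 * Sz r)) ≤ δ1 := by
    rw [← Real.le_log_iff_exp_le hd0]
    have e1 : Real.log (1 / δ1) = -Real.log δ1 := by rw [one_div, Real.log_inv]
    rw [e1] at h2
    linarith
  have hexp : N * Real.exp (-(8 * Sz r)) ≤ δ1 * (N * V ^ 2) := by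
    have e1 : Real.exp (-(8 * Sz r)) = Real.exp (-(4 * Sz r)) * Real.exp (-(4 * Sz r)) := by
      rw [← Real.exp_add]
      congr 1
      ring
    rw [e1]
    have e2 : Real.exp (-(4 * Sz r)) * Real.exp (-(4 * Sz r)) ≤ δ1 * V ^ 2 :=
      mul_le_mul he4 hVsq (Real.exp_pos _).le hd0.le
    nlinarith
  have hVr : 1 / (r : ℝ) ≤ V ^ 2 := by
    refine le_trans ?_ hVsq
    have e1 : Real.log (1 / (r : ℝ)) ≤ -(4 * Sz r) := by
      rw [one_div, Real.log_inv]
      linarith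
    rw [← Real.log_le_iff_le_exp (by positivity)]
    exact e1
  have hrK : (r : ℝ) ^ K ≤ δ1 * (N * V ^ 2) := by
    have e1 : (r : ℝ) ^ (K + 3) * (1 / (r : ℝ)) ≤ N * V ^ 2 :=
      mul_le_mul hNR hVr (by positivity) hN0.le
    have e2 : (r : ℝ) ^ (K + 3) * (1 / (r : ℝ)) = (r : ℝ) ^ K * r * r := by
      field_simp
      ring
    rw [e2] at e1
    have e3 : 1 ≤ δ1 * r := by
      rw [div_le_iff₀ hd0] at h4
      linarith
    have e4 : 0 < (r : ℝ) ^ K := by positivity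
    calc (r : ℝ) ^ K ≤ (r : ℝ) ^ K * (δ1 * r) := le_mul_of_one_le_right e4.le e3
      _ ≤ (r : ℝ) ^ K * (δ1 * r) * r := le_mul_of_one_le_right (by positivity) hr0
      _ = δ1 * ((r : ℝ) ^ K * r * r) := by ring
      _ ≤ δ1 * (N * V ^ 2) := mul_le_mul_of_nonneg_left e1 hd0.le
  have hVV : V ^ 2 ≤ V := by nlinarith
  constructor
  · have hs := h1 z0 hz4 (fun p t => n1 + P * t ≡ b p [MOD p])
      (fun p _ x => modEq_add_self) (fun _ => 1) (fun p _ => by norm_num)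
      (fun p hp => by
        have := card_sol (mem_pr.1 hp).2.2 (hP p hp) n1 (b p)
        convert this) N
      (((range N).filter (fun t => ∀ p ∈ pr z0 r, ¬ n1 + P * t ≡ b p [MOD p])).card)
      (by congr!)
    have hprod : ∏ p ∈ pr z0 r, (1 - (((1 : ℕ) : ℝ)) / p) = V := by
      rw [hVdef, Nat.cast_one]
    rw [hprod] at hs
    have hs1 := (abs_le.1 hs).1
    have hNV : N * V ^ 2 ≤ N * V := mul_le_mul_of_nonneg_left hVV hN0.le
    have hNV0 : 0 < N * V := mul_pos hN0 hV0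
    have e1 : δ1 * (N * V ^ 2) ≤ δ1 * (N * V) := mul_le_mul_of_nonneg_left hNV hd0.le
    have e2 : 3 * δ1 * (N * V) ≤ δ * (N * V) :=
      mul_le_mul_of_nonneg_right (by linarith) hNV0.le
    linarith
  · intro i hi hi3
    have hs := h1 z0 hz4 (fun p t => n1 + P * t ≡ b p [MOD p] ∨ n1 + P * t + i ≡ b p [MOD p])
      (fun p _ x => by rw [modEq_add_self, modEq_add_self'])
      (fun p => if p ∣ i then 1 else 2) (fun p _ => by split_ifs <;> norm_num)
      (fun p hp => by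
        have := card_two (mem_pr.1 hp).2.2 (hP p hp) n1 (b p) i
        split_ifs with hd
        · convert this.1 hd
        · convert this.2 hd) N
      (((range N).filter (fun t => ∀ p ∈ pr z0 r, ¬ n1 + P * t ≡ b p [MOD p] ∧
          ¬ n1 + P * t + i ≡ b p [MOD p])).card)
      (by
        congr 1
        ext t
        simp only [Finset.mem_filter, not_or])
    have hprod : ∏ p ∈ pr z0 r, (1 - (((if p ∣ i then 1 else 2 : ℕ) : ℕ) : ℝ) / p)
        ≤ V ^ 2 * (1 + δ1) := by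
      refine (prod_upper hz4 hi hi3 (fun p => (((if p ∣ i then 1 else 2 : ℕ) : ℕ) : ℝ)) ?_
        ?_).trans ?_
      · intro p hp hd
        simp [hd]
      · intro p hp hd
        simp [hd]
      · apply mul_le_mul_of_nonneg_left _ (sq_nonneg _)
        have hzR : 4 / δ1 ≤ z0 := h5.trans hz0
        have hz4R : (4 : ℝ) ≤ z0 := by exact_mod_cast hz4
        have hz0R : (0 : ℝ) < z0 := by linarith
        have hx : 1 / (z0 : ℝ) ≤ δ1 / 4 := by
          rw [div_le_iff₀ hd0] at hzR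
          rw [div_le_iff₀ hz0R]
          linarith
        have hx0 : 0 < 1 / (z0 : ℝ) := by positivity
        set x := 1 / (z0 : ℝ) with hxdef
        have hx1 : 0 < 1 - x := by nlinarith
        rw [inv_pow, inv_le_comm₀ (by positivity) (by positivity)]
        rw [inv_le_iff_one_le_mul₀ (by positivity)]
        nlinarith [sq_nonneg x]
    set Pi' : ℝ := ∏ p ∈ pr z0 r, (1 - (((if p ∣ i then 1 else 2 : ℕ) : ℕ) : ℝ) / p) with hPi
    have hs1 := (abs_le.1 hs).2
    have hNPi : N * Pi' ≤ N * (V ^ 2 * (1 + δ1)) := mul_le_mul_of_nonneg_left hprod hN0.le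
    have hA : 0 < N * V ^ 2 := by positivity
    have e1 : (1 + δ1) * (N * Pi') ≤ (1 + δ1) * (N * (V ^ 2 * (1 + δ1))) :=
      mul_le_mul_of_nonneg_left hNPi (by linarith)
    have e2 : (1 + δ1) * (N * (V ^ 2 * (1 + δ1))) = (1 + 2 * δ1 + δ1 * δ1) * (N * V ^ 2) := by
      ring
    have e3 : (1 + 2 * δ1 + δ1 * δ1) * (N * V ^ 2) + 2 * (δ1 * (N * V ^ 2))
        ≤ (1 + δ) * (N * V ^ 2) := by
      have : 1 + 2 * δ1 + δ1 * δ1 + 2 * δ1 ≤ 1 + δ := by nlinarith
      nlinarith [mul_le_mul_of_nonneg_right this hA.le]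
    linarith

end Pool.Agent.Helper73.CR
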